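import Pool.Agent.H802.MB.Lamp

/-!
# MP_0de6ea_al, Q2: the growth of the number of marked balls

The definitions are in `Pool/Agent/H802/MB/Defs.lean`: `f d n` is the number of isomorphism classes
of marked balls of radius `n` of all marked `d`-generated groups, `g d n` is the number of those
which come from finite groups. For every `d ≥ 2` both functions grow doubly exponentially, with
exponent linear in `n`: `log log f_d(n)` and `log log g_d(n)` are of the order of `n`.
-/

set_option autoImplicit false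

namespace Pool.Agent.Results.MP_0de6ea_al.DoubleExponential

open Pool.Agent.H802.MB FreeGroup Equiv Filter Asymptotics

section words

variable {d k : ℕ} (hd : 2 ≤ d)

/-- the first generator -/
def gx : FreeGroup (Fin d) := of ⟨0, by omega⟩

/-- the second generator -/
def gy : FreeGroup (Fin d) := of ⟨1, by omega⟩

/-- the homomorphism -/
noncomputable def ps (d : ℕ) (J : Set (Fin k → Bool)) : FreeGroup (Fin d) →* Perm (Pt k) :=
  FreeGroup.lift fun i => if (i : ℕ) = 0 then mv k else if (i : ℕ) = 1 then sw J else 1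

theorem ps_gx (J : Set (Fin k → Bool)) : ps d J (gx hd) = mv k := by
  unfold ps gx
  rw [FreeGroup.lift_apply_of]
  rfl

theorem ps_gy (J : Set (Fin k → Bool)) : ps d J (gy hd) = sw J := by
  unfold ps gy
  rw [FreeGroup.lift_apply_of]
  rfl

/-- the word of the path -/
def qw (ε : Fin k → Bool) : ℕ → FreeGroup (Fin d)
  | 0 => gx hd
  | j + 1 => gx hd * (if h : j < k then (if ε ⟨j, h⟩ then gy hd else 1) else 1) * qw ε j

theorem ps_qw (J : Set (Fin k → Bool)) (ε : Fin k → Bool) (j : ℕ) :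
    ps d J (qw hd ε j) = qq J ε j := by
  induction j with
  | zero => exact ps_gx hd J
  | succ j ih =>
    unfold qw qq
    rw [MonoidHom.map_mul, MonoidHom.map_mul, ih, ps_gx]
    congr 2
    split_ifs
    · exact ps_gy hd J
    · exact MonoidHom.map_one _
    · exact MonoidHom.map_one _

theorem norm_qw (ε : Fin k → Bool) (j : ℕ) : FreeGroup.norm (qw hd ε j) ≤ 2 * j + 1 := by
  induction j with
  | zero =>
    unfold qw gx
    rw [FreeGroup.norm_of]
  | succ j ih =>
    unfold qw
    refine (FreeGroup.norm_mul_le _ _).trans ?_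
    have h1 := FreeGroup.norm_mul_le (gx hd)
      (if h : j < k then (if ε ⟨j, h⟩ then gy hd else 1) else 1)
    have h2 : FreeGroup.norm (gx hd) = 1 := FreeGroup.norm_of _
    have h3 : FreeGroup.norm (if h : j < k then (if ε ⟨j, h⟩ then gy hd else 1) else 1) ≤ 1 := by
      split_ifs
      · exact le_of_eq (FreeGroup.norm_of _)
      · simp
      · simp
    omega

/-- the word which tests whether `ε` belongs to the set -/
def ww (ε : Fin k → Bool) : FreeGroup (Fin d) :=
  gy hd ^ 2 * ((qw hd ε k)⁻¹ * gy hd ^ 2 * qw hd ε k) * (gy hd ^ 2)⁻¹ *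
    ((qw hd ε k)⁻¹ * gy hd ^ 2 * qw hd ε k)⁻¹

theorem ps_ww (J : Set (Fin k → Bool)) (ε : Fin k → Bool) : ps d J (ww hd ε) = wd J ε := by
  unfold ww wd
  simp only [MonoidHom.map_mul, MonoidHom.map_inv, MonoidHom.map_pow, ps_qw, ps_gy]

theorem norm_ww (ε : Fin k → Bool) : FreeGroup.norm (ww hd ε) ≤ 8 * k + 12 := by
  unfold ww
  set y := gy hd ^ 2 with hy
  set q := qw hd ε k with hq
  have h1 : FreeGroup.norm y ≤ 2 := by
    rw [hy, pow_two]
    refine (FreeGroup.norm_mul_le _ _).trans ?_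
    have h2 : FreeGroup.norm (gy hd) = 1 := FreeGroup.norm_of _
    omega
  have h2 : FreeGroup.norm q ≤ 2 * k + 1 := norm_qw hd ε k
  have h3 : FreeGroup.norm (q⁻¹ * y * q) ≤ 4 * k + 4 := by
    have h4 := FreeGroup.norm_mul_le (q⁻¹ * y) q
    have h5 := FreeGroup.norm_mul_le q⁻¹ y
    rw [FreeGroup.norm_inv_eq] at h5
    omega
  have h4 := FreeGroup.norm_mul_le (y * (q⁻¹ * y * q) * y⁻¹) (q⁻¹ * y * q)⁻¹
  have h5 := FreeGroup.norm_mul_le (y * (q⁻¹ * y * q)) y⁻¹
  have h6 := FreeGroup.norm_mul_le y (q⁻¹ * y * q)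
  rw [FreeGroup.norm_inv_eq] at h4 h5
  omega

/-- the marked group of a set -/
noncomputable def NJ (d : ℕ) (J : Set (Fin k → Bool)) : MG d := ⟨(ps d J).ker, inferInstance⟩

theorem ww_mem (J : Set (Fin k → Bool)) (ε : Fin k → Bool) : ww hd ε ∈ (NJ d J).1 ↔ ε ∉ J := by
  rw [← wd_eq_one_iff J ε, ← ps_ww hd]
  exact MonoidHom.mem_ker

theorem NJ_finite (J : Set (Fin k → Bool)) : Finite (Grp (NJ d J)) :=
  Finite.of_injective _ (QuotientGroup.kerLift_injective (ps d J))

include hd in
theorem lower {n : ℕ} (hn : 8 * k + 12 ≤ n) : 2 ^ 2 ^ k ≤ g d n := by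
  have h1 : Nat.card (Set (Fin k → Bool)) = 2 ^ 2 ^ k := by
    rw [Nat.card_eq_fintype_card, Fintype.card_set, Fintype.card_fun, Fintype.card_bool,
      Fintype.card_fin]
  rw [← h1]
  unfold g
  refine Nat.card_le_card_of_injective
    (fun J : Set (Fin k → Bool) => (⟨Quotient.mk (ballSetoid d n) (NJ d J), NJ d J, NJ_finite J,
      rfl⟩ : {c : Classes d n // ∃ N : MG d, Finite (Grp N) ∧
        Quotient.mk (ballSetoid d n) N = c})) ?_
  intro J J' h
  have h2 : SameBall n (NJ d J) (NJ d J') := Quotient.exact (congrArg Subtype.val h)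
  ext ε
  have h3 := sameBall_mem h2 (ww hd ε) ((norm_ww hd ε).trans hn)
  rw [ww_mem, ww_mem] at h3
  exact not_iff_not.1 h3

end words

theorem theta {h : ℕ → ℕ} {C : ℕ} (hC : 1 ≤ C) (h1 : ∀ n ≥ 12, 2 ^ 2 ^ ((n - 12) / 8) ≤ h n)
    (h2 : ∀ n, h n ≤ 2 ^ C ^ (2 * n + 1)) :
    (fun n => Real.log (Real.log (h n))) =Θ[atTop] fun n => (n : ℝ) := by
  have hl2 : (0.69 : ℝ) < Real.log 2 := by
    have := Real.log_two_gt_d9
    linarith
  have hl2' : Real.log 2 < 0.7 := by
    have := Real.log_two_lt_d9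
    linarith
  have hll : (-0.45 : ℝ) ≤ Real.log (Real.log 2) := by
    have h3 := Real.one_sub_inv_le_log_of_pos (x := Real.log 2) (by linarith)
    have h4 : (Real.log 2)⁻¹ ≤ (0.69 : ℝ)⁻¹ := by
      apply inv_anti₀ (by norm_num) hl2.le
    have h5 : (0.69 : ℝ)⁻¹ ≤ 1.45 := by norm_num
    linarith
  have key : ∀ n : ℕ, 20 ≤ n → (n : ℝ) ≤ 120 * Real.log (Real.log (h n)) := by
    intro n hn
    set m := (n - 12) / 8 with hm
    have hm1 : 1 ≤ m := by omega
    have hnm : n ≤ 28 * m := by omega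
    have h3 : (2 : ℝ) ^ 2 ^ m ≤ h n := by exact_mod_cast h1 n (by omega)
    have h4 : (2 : ℝ) ^ m * Real.log 2 ≤ Real.log (h n) := by
      have h5 := Real.log_le_log (by positivity) h3
      rw [Real.log_pow] at h5
      push_cast at h5
      exact h5
    have h5 : (m : ℝ) * Real.log 2 + Real.log (Real.log 2) ≤ Real.log (Real.log (h n)) := by
      have h6 := Real.log_le_log (by positivity) h4
      rw [Real.log_mul (by positivity) (by linarith), Real.log_pow] at h6
      exact h6
    have hm2 : (1 : ℝ) ≤ m := by exact_mod_cast hm1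
    have hnm' : (n : ℝ) ≤ 28 * m := by exact_mod_cast hnm
    nlinarith
  constructor
  · refine IsBigO.of_bound (3 * Real.log (C + 1)) ?_
    filter_upwards [eventually_ge_atTop 20] with n hn
    have hC1 : (1 : ℝ) ≤ C := by exact_mod_cast hC
    have h3 := key n hn
    have h4 : (0 : ℝ) ≤ Real.log (Real.log (h n)) := by
      have : (0 : ℝ) ≤ n := Nat.cast_nonneg n
      linarith
    rw [Real.norm_of_nonneg h4, Real.norm_of_nonneg (Nat.cast_nonneg n)]
    have h5 : 1 ≤ h n := le_trans Nat.one_le_two_pow (h1 n (by omega))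
    have h5' : (1 : ℝ) ≤ h n := by exact_mod_cast h5
    have h6 : Real.log (h n) ≤ (C + 1 : ℝ) ^ (2 * n + 1) := by
      have h7 : (h n : ℝ) ≤ 2 ^ C ^ (2 * n + 1) := by exact_mod_cast h2 n
      have h8 := Real.log_le_log (by linarith) h7
      rw [Real.log_pow] at h8
      push_cast at h8
      have h9 : (C : ℝ) ^ (2 * n + 1) ≤ (C + 1 : ℝ) ^ (2 * n + 1) :=
        pow_le_pow_left₀ (by linarith) (by linarith) _
      have h10 : (0 : ℝ) ≤ (C : ℝ) ^ (2 * n + 1) := by positivity
      nlinarith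
    have h7 : (0 : ℝ) < Real.log (h n) := by
      by_contra hcon
      push Not at hcon
      have h8 : Real.log (h n) = 0 := le_antisymm hcon (Real.log_nonneg h5')
      rw [h8, Real.log_zero] at h3
      have : (20 : ℝ) ≤ n := by exact_mod_cast hn
      linarith
    have h8 := Real.log_le_log h7 h6
    rw [Real.log_pow] at h8
    have h9 : (0 : ℝ) ≤ Real.log (C + 1) := Real.log_nonneg (by linarith)
    have h10 : (20 : ℝ) ≤ n := by exact_mod_cast hn
    push_cast at h8
    nlinarith
  · refine IsBigO.of_bound 120 ?_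
    filter_upwards [eventually_ge_atTop 20] with n hn
    have h3 := key n hn
    rw [Real.norm_of_nonneg (Nat.cast_nonneg n)]
    refine h3.trans ?_
    exact mul_le_mul_of_nonneg_left (le_abs_self _) (by norm_num)

/-- **Answer to Q2**: for `d ≥ 2` the numbers `f_d(n)` of marked balls of radius `n` of marked
`d`-generated groups and `g_d(n)` of those from finite groups satisfy
`2 ^ 2 ^ ⌊(n - 12) / 8⌋ ≤ g_d(n) ≤ f_d(n) ≤ 2 ^ (2 d + 1) ^ (2 n + 1)`; in particular
`log log f_d(n)` and `log log g_d(n)` are of the order of `n`. -/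
theorem result (d : ℕ) (hd : 2 ≤ d) :
    (∀ n ≥ 12, 2 ^ 2 ^ ((n - 12) / 8) ≤ g d n) ∧ (∀ n, g d n ≤ f d n) ∧
    (∀ n, f d n ≤ 2 ^ (2 * d + 1) ^ (2 * n + 1)) ∧
    ((fun n => Real.log (Real.log (f d n))) =Θ[atTop] fun n => (n : ℝ)) ∧
    ((fun n => Real.log (Real.log (g d n))) =Θ[atTop] fun n => (n : ℝ)) := by
  have h1 : ∀ n ≥ 12, 2 ^ 2 ^ ((n - 12) / 8) ≤ g d n := fun n hn => lower hd (by omega)
  exact ⟨h1, g_le_f d, f_le d,
    theta (C := 2 * d + 1) (by omega) (fun n hn => (h1 n hn).trans (g_le_f d n)) (f_le d),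
    theta (C := 2 * d + 1) (by omega) h1 (fun n => (g_le_f d n).trans (f_le d n))⟩

end Pool.Agent.Results.MP_0de6ea_al.DoubleExponential
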